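import Pool.Agent.Helper36.PC.FD
import Pool.Agent.Helper61.PC.Core2
import Pool.Agent.Helper61.PC.Step2
import Pool.Agent.Helper61.GS.GP
import Pool.Agent.Helper77.PC.BPrime
import Pool.Agent.Helper77.PC.Count

/-!
# PC, hyperplane sections: the core for nonconstant points
-/

set_option autoImplicit false

namespace Pool.Agent.PC36

open Pool.Agent.GS Pool.Agent.PC Pool.Agent.FIN

universe u

theorem num2' (n s q : ℕ) (hs : 1 ≤ s) (hq : 2 * n + 3 ≤ q) (h : q * s + 1 ≤ (s + 1) * n + s) : False := by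
  have h1 : (2 * n + 3) * s ≤ q * s := Nat.mul_le_mul_right s hq
  have h2 : n ≤ n * s := Nat.le_mul_of_pos_right n hs
  nlinarith

section

variable {k₀ F E Ω : Type u} [Field k₀] [Field F] [Field E] [Field Ω] [Algebra F E] [Algebra F Ω] [Algebra k₀ Ω]
  {p N s t : ℕ}

/-- combinations of copies, with an arbitrary normalisation -/
theorem comb2 (C : Cop F E Ω p) (x : Fin (N + 1) → E) (j0 : Fin (N + 1)) (hx0 : x j0 = 1)
    (hs : Module.finrank F (Submodule.span F (Set.range x)) = s + 1) (hsp : s + 1 ≤ p) (v : Fin (N + 1) → Ω)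
    (jb : Fin (N + 1)) (hvb : v jb = 1)
    (hv : ∀ c : Fin (N + 1) → F, ∑ j, c j • x j = 0 → ∑ j, c j • v j = 0) :
    ∃ w : Fin s → Ω, ∀ j, v j ∈ cl k₀ ((⋃ e, cp C x e) ∪ Set.range w) := by
  obtain ⟨w, hw⟩ := comb1 C x j0 hx0 hs hsp v hv
  have hxb : x jb ≠ 0 := by
    intro h0
    have h1 := hw jb
    rw [hvb, h0] at h1
    simp at h1
  refine ⟨fun e => w e.succ, ?_⟩
  set G : Set Ω := (⋃ e, cp C x e) ∪ Set.range (fun e : Fin s => w e.succ) with hG
  have hx : ∀ e j, C.φ e (x j) ∈ cl k₀ G := fun e j => subset_cl _ (Or.inl (Set.mem_iUnion.mpr ⟨e, ⟨j, rfl⟩⟩))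
  have hws : ∀ e : Fin s, w e.succ ∈ cl k₀ G := fun e => subset_cl _ (Or.inr ⟨e, rfl⟩)
  have h0 : w 0 ∈ cl k₀ G := by
    have h1 := hw jb
    rw [hvb, Fin.sum_univ_succ] at h1
    have hne : C.φ ⟨(0 : Fin (s + 1)).1, lt_of_lt_of_le (0 : Fin (s + 1)).2 hsp⟩ (x jb) ≠ 0 := (map_ne_zero _).mpr hxb
    have h2 : w 0 = (1 - ∑ e : Fin s, w e.succ * C.φ ⟨(e.succ).1, lt_of_lt_of_le (e.succ).2 hsp⟩ (x jb)) /
        C.φ ⟨(0 : Fin (s + 1)).1, lt_of_lt_of_le (0 : Fin (s + 1)).2 hsp⟩ (x jb) := by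
      rw [eq_div_iff hne]
      linear_combination -h1
    rw [h2]
    exact cl_div (cl_sub (cl_one _) (cl_sum _ _ fun e _ => cl_mul (hws e) (hx _ _))) (hx _ _)
  intro j
  rw [hw j]
  refine cl_sum _ _ fun e _ => cl_mul ?_ (hx _ _)
  refine Fin.cases h0 hws e

end

theorem core1n {k₀ F E : Type u} [Field k₀] [Field F] [IsAlgClosed F] [Field E] [Algebra k₀ F] [Algebra F E]
    [Algebra k₀ E] [IsScalarTower k₀ F E] {N n q r : ℕ} (I : Set (MvPolynomial (Fin (N + 1)) k₀)) (hI : Homog I)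
    (hDim : Dim k₀ I n) (ℓ : Fin q → Fin (N + 1) → F)
    (hℓ : AlgebraicIndependent k₀ fun t : Fin q × Fin (N + 1) => ℓ t.1 t.2) (y : Fin r → Fin (N + 1) → E)
    (j0 : Fin r → Fin (N + 1)) (hy1 : ∀ σ, y σ (j0 σ) = 1) (hyX : ∀ σ, OnX I (y σ)) (s0 : Fin r)
    (hnc : ∀ σ, ∃ j, ¬ Cst F (y σ j)) (hu : ∀ i, ∏ σ, ∑ j, algebraMap F E (ℓ i j) * y σ j ≠ 0)
    (hrk : Rk F (fun i => ∏ σ, ∑ j, algebraMap F E (ℓ i j) * y σ j) 1) (hq : r * (n + 1) + 1 ≤ q)
    (hq1 : 2 * n + 3 ≤ q) : False := by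
  classical
  set u : Fin q → E := fun i => ∏ σ, ∑ j, algebraMap F E (ℓ i j) * y σ j with hudef
  have hnq : n < q := by omega
  -- the dimensions of the spans
  let D : Fin r → ℕ := fun σ => Module.finrank F (Submodule.span F (Set.range (y σ)))
  have hfd : ∀ σ, FiniteDimensional F (Submodule.span F (Set.range (y σ))) := fun σ =>
    FiniteDimensional.span_of_finite F (Set.finite_range _)
  have hD2 : ∀ σ, 2 ≤ D σ := by
    intro σ
    obtain ⟨jf, hf⟩ := hnc σ
    have := hfd σ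
    have hli : LinearIndependent F ![(1 : E), y σ jf] := by
      rw [LinearIndependent.pair_iff]
      intro s t hst
      have ht : t = 0 := by
        by_contra ht
        apply hf
        refine ⟨- s / t, ?_⟩
        have ht' : algebraMap F E t ≠ 0 := (map_ne_zero _).2 ht
        rw [map_div₀, map_neg, eq_div_iff ht']
        rw [Algebra.smul_def, Algebra.smul_def, mul_one] at hst
        linear_combination hst
      rw [ht, zero_smul, add_zero, Algebra.smul_def, mul_one] at hst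
      exact ⟨(map_eq_zero _).1 hst, ht⟩
    have h1 : Module.finrank F (Submodule.span F (Set.range ![(1 : E), y σ jf])) = 2 := by
      have h1 := finrank_span_eq_card hli
      rw [Fintype.card_fin] at h1
      exact h1
    rw [← h1]
    apply Submodule.finrank_mono
    rw [Submodule.span_le]
    rintro _ ⟨i, rfl⟩
    fin_cases i
    · show (1 : E) ∈ _
      rw [← hy1 σ]
      exact Submodule.subset_span ⟨_, rfl⟩
    · exact Submodule.subset_span ⟨_, rfl⟩
  have hr : (Finset.univ : Finset (Fin r)).Nonempty := ⟨s0, Finset.mem_univ _⟩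
  obtain ⟨s1, -, hs1⟩ := Finset.exists_max_image Finset.univ D hr
  obtain ⟨s, hs⟩ : ∃ s, D s1 = s + 1 := ⟨D s1 - 1, by have := hD2 s1; omega⟩
  have hs' : 1 ≤ s := by
    have := hD2 s1
    omega
  obtain ⟨jf, hf⟩ := hnc s1
  let X : Set E := {z | ∃ σ j, z = y σ j}
  have hdt : ∀ i, ∏ σ, ∑ j, algebraMap F E (ℓ i j) * y σ j = u i := fun i => rfl
  have hval : ∀ i σ, ∑ j, ℓ i j • y σ j ≠ 0 := by
    intro i σ
    have h1 := Finset.prod_ne_zero_iff.mp (hu i) σ (Finset.mem_univ σ)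
    simpa only [Algebra.smul_def] using h1
  -- one copy of one point
  have hone : ∀ {p : ℕ} {Ω : Type u} [Field Ω] [Algebra F Ω] [Algebra k₀ Ω] [IsScalarTower k₀ F Ω] (C : Cop F E Ω p),
      ∀ σ a, rk k₀ (cp C (y σ) a) ≤ n := by
    intro p Ω _ _ _ _ C σ a
    refine le_trans (rk_mono ?_) (hDim Ω (fun j => C.φ a (y σ j)) (onX_map I (C.φ a) (y σ) (hyX σ)))
    rintro _ ⟨j, rfl⟩
    refine ⟨j, j0 σ, ?_⟩
    show C.φ a (y σ j) = C.φ a (y σ j) / C.φ a (y σ (j0 σ))
    rw [hy1, map_one, div_one]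
  have hXB : ∀ {p : ℕ} {Ω : Type u} [Field Ω] [Algebra F Ω] [Algebra k₀ Ω] (C : Cop F E Ω p),
      (⋃ a, C.φ a '' X) ⊆ ⋃ σ ∈ (Finset.univ : Finset (Fin r)), ⋃ a, cp C (y σ) a := by
    intro p Ω _ _ _ C w hw
    obtain ⟨a, z, ⟨σ, j, rfl⟩, rfl⟩ := Set.mem_iUnion.mp hw
    simp only [Set.mem_iUnion]
    exact ⟨σ, Finset.mem_univ σ, a, j, rfl⟩
  -- case (1)
  rcases Nat.lt_or_ge s n with hsn | hsn
  swap
  · obtain ⟨Ω, _, _, _, ⟨C⟩⟩ := exists_cop F E (s + 1)
    let _ : Algebra k₀ Ω := ((algebraMap F Ω).comp (algebraMap k₀ F)).toAlgebra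
    have htw : IsScalarTower k₀ F Ω := IsScalarTower.of_algebraMap_eq fun _ => rfl
    have hR : rk k₀ (⋃ a, C.φ a '' X) ≤ ((r * ((s + 1) * n) : ℕ) : ℕ∞) := by
      refine (rk_mono (hXB C)).trans ?_
      have h1 := rk_iUnion61 (k := k₀) (Finset.univ : Finset (Fin r)) (fun σ => ⋃ a, cp C (y σ) a) ((s + 1) * n)
        (fun σ _ => by
          have h2 := rk_iUnion61 (k := k₀) (Finset.univ : Finset (Fin (s + 1))) (fun a => cp C (y σ) a) n
            (fun a _ => hone C σ a)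
          rw [Finset.card_univ, Fintype.card_fin] at h2
          refine le_trans (rk_mono ?_) h2
          intro z hz
          obtain ⟨a, hz⟩ := Set.mem_iUnion.mp hz
          exact Set.mem_iUnion₂.mpr ⟨a, Finset.mem_univ a, hz⟩)
      rw [Finset.card_univ, Fintype.card_fin] at h1
      exact h1
    have hcount := count (k₀ := k₀) (by omega) C ℓ hℓ X (y s1 jf) hf ⟨s1, jf, rfl⟩ hR u hu hrk (fun _ => s + 1) (fun i => by
      have h1 := drops (k₀ := k₀) C X y (fun σ j => ⟨σ, j, rfl⟩) (ℓ i) (u i) (hu i) (hdt i) s1 (e := s) hs.ge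
      rw [min_self] at h1
      exact h1)
    rw [Finset.sum_const, Finset.card_univ, Fintype.card_fin, smul_eq_mul] at hcount
    exact num1 n r s q hsn hq (by nlinarith)
  by_cases hall : ∀ σ, Rl F (y s1) ≤ Rl F (y σ)
  · -- case (2)
    obtain ⟨Ω, _, _, _, ⟨C⟩⟩ := exists_cop F E (s + 1)
    let _ : Algebra k₀ Ω := ((algebraMap F Ω).comp (algebraMap k₀ F)).toAlgebra
    have htw : IsScalarTower k₀ F Ω := IsScalarTower.of_algebraMap_eq fun _ => rfl
    have hw : ∀ σ a, ∃ w : Fin s → Ω, ∀ j, C.φ a (y σ j) ∈ cl k₀ ((⋃ e, cp C (y s1) e) ∪ Set.range w) := by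
      intro σ a
      refine comb2 (k₀ := k₀) C (y s1) (j0 s1) (hy1 s1) hs le_rfl (fun j => C.φ a (y σ j)) (j0 σ)
        (by simp only [hy1, map_one]) ?_
      intro c hc
      have h1 := hall σ ((mem_Rl _ _).mpr hc)
      rw [mem_Rl] at h1
      rw [rel_copy, h1, map_zero]
    choose w hw using hw
    have hR : rk k₀ (⋃ a, C.φ a '' X) ≤ (((s + 1) * n + (r - 1) * ((s + 1) * s) : ℕ) : ℕ∞) := by
      have hsub : (⋃ a, C.φ a '' X) ⊆ cl k₀ ((⋃ e, cp C (y s1) e) ∪
          ⋃ σ ∈ (Finset.univ.erase s1 : Finset (Fin r)), ⋃ a ∈ (Finset.univ : Finset (Fin (s + 1))), Set.range (w σ a)) := by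
        intro z hz
        obtain ⟨a, z, ⟨σ, j, rfl⟩, rfl⟩ := Set.mem_iUnion.mp hz
        by_cases hσ : σ = s1
        · subst hσ
          exact subset_cl _ (Or.inl (Set.mem_iUnion.mpr ⟨a, ⟨j, rfl⟩⟩))
        · refine cl_mono (Set.union_subset_union_right _ ?_) (hw σ a j)
          intro z hz
          exact Set.mem_iUnion₂.mpr ⟨σ, Finset.mem_erase.mpr ⟨hσ, Finset.mem_univ _⟩,
            Set.mem_iUnion₂.mpr ⟨a, Finset.mem_univ _, hz⟩⟩
      refine (rk_le_of_subset hsub).trans ((rk_union _ _).trans ?_)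
      push_cast
      refine add_le_add ?_ ?_
      · have h1 := rk_copies (k₀ := k₀) C (y s1) (j0 s1) (hy1 s1) hs le_rfl (fun a => hone C s1 a)
        have h2 : s + 1 - s - 1 = 0 := by omega
        rw [h2, zero_mul, add_zero] at h1
        exact_mod_cast h1
      · have h1 := rk_iUnion61 (k := k₀) (Finset.univ.erase s1 : Finset (Fin r))
          (fun σ => ⋃ a ∈ (Finset.univ : Finset (Fin (s + 1))), Set.range (w σ a)) ((s + 1) * s) (fun σ _ => by
          have h2 := rk_iUnion61 (k := k₀) (Finset.univ : Finset (Fin (s + 1))) (fun a => Set.range (w σ a)) s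
            (fun a _ => rk_range_fin _)
          rw [Finset.card_univ, Fintype.card_fin] at h2
          exact h2)
        rw [Finset.card_erase_of_mem (Finset.mem_univ _), Finset.card_univ, Fintype.card_fin] at h1
        exact_mod_cast h1
    have hcount := count (k₀ := k₀) (by omega) C ℓ hℓ X (y s1 jf) hf ⟨s1, jf, rfl⟩ hR u hu hrk (fun _ => s + 1) (fun i => by
      have h1 := drops (k₀ := k₀) C X y (fun σ j => ⟨σ, j, rfl⟩) (ℓ i) (u i) (hu i) (hdt i) s1 (e := s) hs.ge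
      rw [min_self] at h1
      exact h1)
    rw [Finset.sum_const, Finset.card_univ, Fintype.card_fin, smul_eq_mul] at hcount
    rcases Nat.lt_or_ge r 2 with hr2 | hr2
    · have hr1 : r - 1 = 0 := by omega
      rw [hr1, zero_mul, add_zero] at hcount
      exact num2' n s q hs' hq1 (by nlinarith)
    · exact num2 n r s q hs' hsn hr2 hq (by nlinarith)
  -- case (3)
  push Not at hall
  obtain ⟨b, hb⟩ := hall
  have hbs : b ≠ s1 := by
    rintro rfl
    exact hb le_rfl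
  obtain ⟨Ω, _, _, _, ⟨C⟩⟩ := exists_cop F E (s + 2)
  let _ : Algebra k₀ Ω := ((algebraMap F Ω).comp (algebraMap k₀ F)).toAlgebra
  have htw : IsScalarTower k₀ F Ω := IsScalarTower.of_algebraMap_eq fun _ => rfl
  set B : Finset (Fin q) := Finset.univ.filter fun i => Rl F (y s1) ≤ Rl F (y b) ⊔ Submodule.span F {ℓ i} with hB
  have hR1 : Module.finrank F (Rl F (y s1)) + (s + 1) = N + 1 := by
    have := finrank_Rl (F := F) (y s1)
    change D s1 + _ = _ at this
    omega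
  have hQ1 : ∀ i, Module.finrank F (QQ (ℓ i) y) ≤ Module.finrank F (Rl F (y s1)) + 1 := fun i =>
    finrank_Q1 (fun σ => Rl F (y σ)) (ℓ i) s1
  have hQ2 : ∀ i, i ∉ B → Module.finrank F (QQ (ℓ i) y) ≤ Module.finrank F (Rl F (y s1)) := fun i hi =>
    finrank_Q2 (fun σ => Rl F (y σ)) (ℓ i) s1 b (by
      intro h
      exact hi (Finset.mem_filter.mpr ⟨Finset.mem_univ _, h⟩))
  -- the rank of all the copies of one point
  have hG : ∀ σ, rk k₀ (⋃ a, cp C (y σ) a) ≤ (((s + 1) * n + s : ℕ) : ℕ∞) := by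
    intro σ
    obtain ⟨t, ht⟩ : ∃ t, D σ = t + 1 := ⟨D σ - 1, by have := hD2 σ; omega⟩
    have hts : t ≤ s := by
      have := hs1 σ (Finset.mem_univ _)
      omega
    have h2 := rk_copies (k₀ := k₀) C (y σ) (j0 σ) (hy1 σ) ht (by omega) (fun a => hone C σ a)
    refine h2.trans ?_
    have h3 := mono_f n s t hts hsn
    have h4 : s + 2 - t - 1 = s + 1 - t := by omega
    rw [h4]
    exact_mod_cast h3
  have key : ∀ R : ℕ, rk k₀ (⋃ a, C.φ a '' X) ≤ R → q * (s + 1) ≤ R + s + B.card := by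
    intro R hR
    have hcount := count (k₀ := k₀) (by omega) C ℓ hℓ X (y s1 jf) hf ⟨s1, jf, rfl⟩ hR u hu hrk
      (fun i => if i ∈ B then s + 1 else s + 2) (fun i => by
      obtain ⟨S, hS, hS'⟩ := drops2 (k₀ := k₀) C X y (fun σ j => ⟨σ, j, rfl⟩) (ℓ i) (u i) (hu i) (hdt i) s1
      refine ⟨S, ?_, hS'⟩
      have h1 := hQ1 i
      by_cases hi : i ∈ B
      · rw [if_pos hi]
        have h2 : s + 1 ≤ min (s + 2) (N + 1 + 1 - Module.finrank F (QQ (ℓ i) y)) := by
          rw [le_min_iff]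
          omega
        omega
      · rw [if_neg hi]
        have h3 := hQ2 i hi
        have h2 : s + 2 ≤ min (s + 2) (N + 1 + 1 - Module.finrank F (QQ (ℓ i) y)) := by
          rw [le_min_iff]
          omega
        omega)
    have hsum : ∑ i, (if i ∈ B then s + 1 else s + 2) + B.card = q * (s + 2) := by
      have h1 : B.card = ∑ i, if i ∈ B then 1 else 0 := by simp
      rw [h1, ← Finset.sum_add_distrib]
      have h2 : ∀ i : Fin q, ((if i ∈ B then s + 1 else s + 2) + if i ∈ B then 1 else 0) = s + 2 := by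
        intro i
        by_cases hi : i ∈ B <;> simp [hi]
      rw [Finset.sum_congr rfl fun i _ => h2 i, Finset.sum_const, Finset.card_univ, Fintype.card_fin, smul_eq_mul]
    nlinarith
  rcases B.eq_empty_or_nonempty with hBe | ⟨i0, hi0⟩
  · -- (3a)
    have h1 := key (r * ((s + 1) * n + s)) (by
      refine (rk_mono (hXB C)).trans ?_
      have h1 := rk_iUnion61 (k := k₀) (Finset.univ : Finset (Fin r)) (fun σ => ⋃ a, cp C (y σ) a) ((s + 1) * n + s)
        (fun σ _ => hG σ)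
      rw [Finset.card_univ, Fintype.card_fin] at h1
      exact h1)
    rw [hBe, Finset.card_empty, add_zero] at h1
    exact num3a n r s q hq h1
  -- (3b)
  have hB0 : ∀ i ∈ B, Rl F (y s1) ≤ Rl F (y b) ⊔ Submodule.span F {ℓ i} := fun i hi => (Finset.mem_filter.mp hi).2
  obtain ⟨t, ht⟩ : ∃ t, D b = t + 1 := ⟨D b - 1, by have := hD2 b; omega⟩
  have hts : t ≤ s := by
    have := hs1 b (Finset.mem_univ _)
    omega
  obtain ⟨M, hM, hMacl⟩ := exists_M (k₀ := k₀) (t := t) C (y b)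
  obtain ⟨J, γ, hli, hγM, hγ⟩ := exists_coeff (k₀ := k₀) C (y b) ht (by omega) M hM
  have hMcl : IsAlgClosed M := acl_isAlgClosed M (fun P hP hc z hz => hMacl P hP hc z hz)
  have hrkM := rk_M (y b) (j0 b) (hy1 b) M J γ hγM hγ
  obtain ⟨β, hβ⟩ : ∃ β : ℕ, rk M (Set.range (y b)) = β := by
    have hfin : rk M (Set.range (y b)) ≠ ⊤ := ne_top_of_le_ne_top (ENat.natCast_ne_top _) hrkM
    obtain ⟨R, hR⟩ := ENat.ne_top_iff_exists.mp hfin
    exact ⟨R, hR.symm⟩
  have hβt : β ≤ t := by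
    rw [hβ] at hrkM
    exact_mod_cast hrkM
  have hβ1 : 1 ≤ β := by
    by_contra hcon
    have hβ0 : β = 0 := by omega
    obtain ⟨jb, hjb⟩ := hnc b
    apply hjb
    have h1 : y b jb ∈ cl M (∅ : Set E) := by
      obtain ⟨b', hb', hbi, hbr⟩ := exists_basis (k := M) (Set.range (y b))
      rw [hβ, hβ0, Nat.cast_zero, Set.encard_eq_zero] at hbr
      by_contra hnot
      have h2 : (AlgebraicIndependent.matroid M E).Indep (insert (y b jb) b') := by
        rw [Matroid.Indep.insert_indep_iff ((indep_iff b').mpr hbi)]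
        left
        refine ⟨by simp, ?_⟩
        rw [hbr]
        exact hnot
      have h3 : (insert (y b jb) b').encard ≤ rk M (Set.range (y b)) := by
        unfold rk
        rw [← h2.eRk_eq_encard]
        exact (AlgebraicIndependent.matroid M E).eRk_mono (Set.insert_subset ⟨jb, rfl⟩ hb')
      rw [hbr, hβ, hβ0] at h3
      simp at h3
    have h4 : y b jb ∈ cl F (∅ : Set E) := by
      rw [mem_cl] at h1 ⊢
      have h5 : IsAlgebraic M (y b jb) := by
        have h6 : IsAlgebraic (⊥ : Subalgebra M E) (y b jb) := by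
          rwa [Algebra.adjoin_empty] at h1
        obtain ⟨P, hP, hPz⟩ := h6
        have : Algebra.IsAlgebraic M (⊥ : Subalgebra M E) := inferInstance
        exact IsAlgebraic.restrictScalars M ⟨P, hP, hPz⟩
      have h7 : IsAlgebraic F (y b jb) := h5.extendScalars (algebraMap M F).injective
      exact h7.extendScalars (algebraMap F (Algebra.adjoin F (∅ : Set E))).injective
    rw [mem_cl, Algebra.adjoin_empty] at h4
    have h8 : IsAlgebraic F (y b jb) := h4.restrictScalars F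
    exact cst_of_isAlgebraic (F := F) _ h8
  obtain ⟨w0, hw0⟩ := exists_w0 (k₀ := k₀) C (y b) M hM β hβ
  have hkM : ∀ c : k₀, ∃ m : M, algebraMap k₀ F c = algebraMap M F m := by
    intro c
    have h1 : algebraMap k₀ F c ∈ M := by
      rw [hM, ← IsScalarTower.algebraMap_apply k₀ F Ω]
      exact cl_cst _ _
    exact ⟨⟨_, h1⟩, rfl⟩
  have hGP : GP F (ext F I) ℓ n := by
    obtain ⟨Φ, hΦ, h⟩ := gp_generic_ext (q := q) I hDim
    refine h F ℓ fun h0 => hΦ ?_
    exact (algebraicIndependent_iff.mp hℓ) Φ h0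
  have hBcard : B.card + β ≤ n + 1 := by
    refine bprime (M := M) I hI ℓ hGP hnq hkM (y b) (j0 b) (hy1 b) (hyX b)
      (fun c hc => rel_def (y b) M J γ hli hγM hγ c hc) hβ1 hβ.ge B (ℓ i0) fun i hi => ?_
    have h1 := exc_mem _ _ hb (ℓ i0) (ℓ i) (hB0 i0 hi0) (hB0 i hi)
    have h2 : Rl F (y b) ⊔ Submodule.span F {ℓ i0} ≤
        Submodule.span F ({ℓ i0} ∪ {c : Fin (N + 1) → F | ∑ j, c j • y b j = 0}) := by
      rw [sup_le_iff]
      constructor
      · intro c hc
        exact Submodule.subset_span (Or.inr ((mem_Rl _ _).mp hc))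
      · exact Submodule.span_mono Set.subset_union_left
    exact h2 h1
  have hrb := rk_b (k₀ := k₀) C (y s1) (y b) (j0 s1) (j0 b) (hy1 s1) (hy1 b) hs hts (ℓ i0) (hval i0 b) (hB0 i0 hi0)
    (fun a => hone C s1 a) (fun a => hone C b a) w0 hw0
  have hr2 : 2 ≤ r := by
    by_contra hcon
    apply hbs
    have h1 := b.2
    have h2 := s1.2
    apply Fin.ext
    omega
  have h1 := key (((s + 1) * n + s + (n + t * (s + 1) + (s + 1 - t) * β)) + (r - 2) * ((s + 1) * n + s)) (by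
    have hsub : (⋃ a, C.φ a '' X) ⊆ ((⋃ a, cp C (y s1) a) ∪ ⋃ a, cp C (y b) a) ∪
        ⋃ σ ∈ ((Finset.univ.erase s1).erase b : Finset (Fin r)), ⋃ a, cp C (y σ) a := by
      intro z hz
      obtain ⟨a, z, ⟨σ, j, rfl⟩, rfl⟩ := Set.mem_iUnion.mp hz
      by_cases hσ : σ = s1
      · subst hσ
        exact Or.inl (Or.inl (Set.mem_iUnion.mpr ⟨a, ⟨j, rfl⟩⟩))
      · by_cases hσb : σ = b
        · subst hσb
          exact Or.inl (Or.inr (Set.mem_iUnion.mpr ⟨a, ⟨j, rfl⟩⟩))
        · exact Or.inr (Set.mem_iUnion₂.mpr ⟨σ, Finset.mem_erase.mpr ⟨hσb, Finset.mem_erase.mpr ⟨hσ, Finset.mem_univ _⟩⟩,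
            Set.mem_iUnion.mpr ⟨a, ⟨j, rfl⟩⟩⟩)
    refine (rk_mono hsub).trans ((rk_union _ _).trans ?_)
    push_cast
    refine add_le_add (by exact_mod_cast hrb) ?_
    have h1 := rk_iUnion61 (k := k₀) ((Finset.univ.erase s1).erase b : Finset (Fin r)) (fun σ => ⋃ a, cp C (y σ) a)
      ((s + 1) * n + s) (fun σ _ => hG σ)
    rw [Finset.card_erase_of_mem (Finset.mem_erase.mpr ⟨hbs, Finset.mem_univ _⟩),
      Finset.card_erase_of_mem (Finset.mem_univ _), Finset.card_univ, Fintype.card_fin] at h1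
    have h2 : r - 1 - 1 = r - 2 := by omega
    rw [h2] at h1
    exact_mod_cast h1)
  obtain ⟨r', rfl⟩ := Nat.exists_eq_add_of_le' hr2
  have h3 : r' + 2 - 2 = r' := by omega
  rw [h3] at h1
  exact num3b n r' s t β B.card q hts hsn hβt hs' hBcard hq h1

end Pool.Agent.PC36
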