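import Pool.Agent.Helper36.PC.RB

/-!
# PC, hyperplane sections: the field of definition of the span of a point
-/

set_option autoImplicit false

namespace Pool.Agent.PC36

open Pool.Agent.GS Pool.Agent.PC Pool.Agent.FIN

universe u

section

variable {k₀ F E Ω : Type u} [Field k₀] [Field F] [Field E] [Field Ω] [Algebra F E] [Algebra F Ω] [Algebra k₀ Ω]
  {p N t : ℕ}

/-- the constants in the closure of the first copies -/
theorem exists_M (C : Cop F E Ω p) (x : Fin (N + 1) → E) : ∃ M : Subfield F,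
    (∀ c : F, c ∈ M ↔ algebraMap F Ω c ∈ cl k₀ (fst C x (t + 1))) ∧
    ∀ P : Polynomial F, P ≠ 0 → (∀ i, P.coeff i ∈ M) → ∀ z, P.eval z = 0 → z ∈ M := by
  obtain ⟨K', hK', hacl⟩ := aclk61 (k := k₀) (fst C x (t + 1))
  refine ⟨K'.comap (algebraMap F Ω), ?_, ?_⟩
  · intro c
    rw [Subfield.mem_comap, ← SetLike.mem_coe, hK']
  · intro P hP hc z hz
    rw [Subfield.mem_comap]
    refine hacl (P.map (algebraMap F Ω)) ?_ ?_ _ ?_
    · rwa [Ne, Polynomial.map_eq_zero]
    · intro i
      rw [Polynomial.coeff_map]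
      exact hc i
    · rw [Polynomial.eval_map, Polynomial.eval₂_at_apply, hz, map_zero]

/-- a basis of the coordinates, and the coefficients are in `M` -/
theorem exists_coeff (C : Cop F E Ω p) (x : Fin (N + 1) → E)
    (hs : Module.finrank F (Submodule.span F (Set.range x)) = t + 1) (htp : t + 1 ≤ p) (M : Subfield F)
    (hM : ∀ c : F, c ∈ M ↔ algebraMap F Ω c ∈ cl k₀ (fst C x (t + 1))) :
    ∃ (J : Fin (t + 1) → Fin (N + 1)) (γ : Fin (N + 1) → Fin (t + 1) → F),
      LinearIndependent F (fun i => x (J i)) ∧ (∀ j i, γ j i ∈ M) ∧ ∀ j, x j = ∑ i, γ j i • x (J i) := by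
  classical
  obtain ⟨κ, J, hJ, hspan, hli⟩ := exists_linearIndependent' F x
  have : Finite κ := Finite.of_injective J hJ
  have : Fintype κ := Fintype.ofFinite κ
  have hcard : Fintype.card κ = t + 1 := by
    rw [← hs, ← hspan]
    exact (finrank_span_eq_card hli).symm
  let e : Fin (t + 1) ≃ κ := (Fintype.equivFinOfCardEq hcard).symm
  set z : Fin (t + 1) → E := fun i => x (J (e i)) with hz
  have hzli : LinearIndependent F z := hli.comp e e.injective
  have hzspan : Submodule.span F (Set.range z) = Submodule.span F (Set.range x) := by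
    rw [← hspan]
    congr 1
    exact e.surjective.range_comp (x ∘ J)
  have hex : ∀ j, ∃ c : Fin (t + 1) → F, ∑ i, c i • z i = x j := by
    intro j
    have hxj : x j ∈ Submodule.span F (Set.range z) := by
      rw [hzspan]
      exact Submodule.subset_span ⟨j, rfl⟩
    rwa [Submodule.mem_span_range_iff_exists_fun] at hxj
  choose γ hγ using hex
  refine ⟨fun i => J (e i), γ, hzli, ?_, fun j => (hγ j).symm⟩
  intro j i
  rw [hM]
  -- the linear system
  obtain ⟨K', hK', -⟩ := aclk61 (k := k₀) (fst C x (t + 1))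
  have hmem : ∀ y, y ∈ K' ↔ y ∈ cl k₀ (fst C x (t + 1)) := fun y => by rw [← SetLike.mem_coe, hK']
  have hcopy : ∀ (a : Fin (t + 1)) (j : Fin (N + 1)), C.φ ⟨a.1, lt_of_lt_of_le a.2 htp⟩ (x j) ∈ K' := by
    intro a j
    rw [hmem]
    refine subset_cl _ ?_
    exact Set.mem_iUnion₂.mpr ⟨⟨a.1, lt_of_lt_of_le a.2 htp⟩, Finset.mem_filter.mpr ⟨Finset.mem_univ _, a.2⟩, ⟨j, rfl⟩⟩
  let A : Matrix (Fin (t + 1)) (Fin (t + 1)) K' := fun a i => ⟨C.φ ⟨a.1, lt_of_lt_of_le a.2 htp⟩ (z i), hcopy a _⟩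
  have hAdet : A.det ≠ 0 := by
    have hu := indep_copies C z hzli (t + 1) htp le_rfl
    have h1 : LinearIndependent Ω (A.map (algebraMap K' Ω)).row := hu
    have h2 := (Matrix.linearIndependent_rows_iff_isUnit (A := A.map (algebraMap K' Ω))).mp h1
    have h3 : (A.map (algebraMap K' Ω)).det ≠ 0 := by
      rw [Matrix.isUnit_iff_isUnit_det] at h2
      exact h2.ne_zero
    intro h0
    apply h3
    have h4 := (algebraMap K' Ω).map_det A
    rw [h0, map_zero] at h4
    exact h4.symm
  let y : Fin (t + 1) → K' := fun a => ⟨C.φ ⟨a.1, lt_of_lt_of_le a.2 htp⟩ (x j), hcopy a j⟩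
  set g : Fin (t + 1) → K' := (A⁻¹).mulVec y with hg
  have hAg : A.mulVec g = y := by
    rw [hg, Matrix.mulVec_mulVec, Matrix.mul_nonsing_inv _ (isUnit_iff_ne_zero.mpr hAdet), Matrix.one_mulVec]
  -- `γ j` solves the same system over `Ω`
  have hγΩ : ∀ a : Fin (t + 1), ∑ i, C.φ ⟨a.1, lt_of_lt_of_le a.2 htp⟩ (z i) * (algebraMap F Ω (γ j i) - (g i : Ω)) = 0 := by
    intro a
    have h1 := congrArg (fun w : K' => (w : Ω)) (congrFun hAg a)
    simp only [Matrix.mulVec, dotProduct] at h1
    have h2 : ((∑ i, A a i * g i : K') : Ω) = ∑ i, C.φ ⟨a.1, lt_of_lt_of_le a.2 htp⟩ (z i) * (g i : Ω) := by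
      push_cast
      rfl
    rw [h2] at h1
    have h3 : ∑ i, C.φ ⟨a.1, lt_of_lt_of_le a.2 htp⟩ (z i) * algebraMap F Ω (γ j i) =
        C.φ ⟨a.1, lt_of_lt_of_le a.2 htp⟩ (x j) := by
      rw [← hγ j, map_sum]
      refine Finset.sum_congr rfl fun i _ => ?_
      rw [map_smul, Algebra.smul_def, mul_comm]
    simp only [mul_sub, Finset.sum_sub_distrib]
    rw [h3, h1]
    exact sub_self _
  have hzero : ∀ i, algebraMap F Ω (γ j i) - (g i : Ω) = 0 := by
    have hu := indep_copies C z hzli (t + 1) htp le_rfl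
    let B : Matrix (Fin (t + 1)) (Fin (t + 1)) Ω := fun a i => C.φ ⟨a.1, lt_of_lt_of_le a.2 htp⟩ (z i)
    have h1 : LinearIndependent Ω B.row := hu
    have h2 := (Matrix.linearIndependent_rows_iff_isUnit (A := B)).mp h1
    have h3 : B.det ≠ 0 := by
      rw [Matrix.isUnit_iff_isUnit_det] at h2
      exact h2.ne_zero
    have h4 : B.mulVec (fun i => algebraMap F Ω (γ j i) - (g i : Ω)) = 0 := funext hγΩ
    have h5 := Matrix.eq_zero_of_mulVec_eq_zero h3 h4
    exact fun i => congrFun h5 i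
  have h6 : algebraMap F Ω (γ j i) = (g i : Ω) := by
    have := hzero i
    linear_combination this
  rw [h6, ← hmem]
  exact (g i).2

/-- the relations are defined over `M` -/
theorem rel_def (x : Fin (N + 1) → E) (M : Subfield F) (J : Fin (t + 1) → Fin (N + 1)) (γ : Fin (N + 1) → Fin (t + 1) → F)
    (hli : LinearIndependent F (fun i => x (J i))) (hγM : ∀ j i, γ j i ∈ M) (hγ : ∀ j, x j = ∑ i, γ j i • x (J i))
    (c : Fin (N + 1) → F) (hc : ∑ j, c j • x j = 0) :
    c ∈ Submodule.span F {c' : Fin (N + 1) → F | (∀ j, ∃ m : M, c' j = algebraMap M F m) ∧ ∑ j, c' j • x j = 0} := by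
  classical
  let r : Fin (N + 1) → Fin (N + 1) → F := fun j => Pi.single j 1 - ∑ i, γ j i • Pi.single (J i) 1
  have hr : ∀ (W : Type u) [AddCommGroup W] [Module F W] (f : Fin (N + 1) → W) (j : Fin (N + 1)),
      ∑ l, (r j l) • f l = f j - ∑ i, γ j i • f (J i) := by
    intro W _ _ f j
    have h1 := (Fintype.linearCombination_apply F f (r j)).symm
    rw [h1]
    simp only [r]
    rw [map_sub, map_sum, Fintype.linearCombination_apply_single, one_smul]
    congr 1
    refine Finset.sum_congr rfl fun i _ => ?_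
    rw [map_smul, Fintype.linearCombination_apply_single, one_smul]
  have hrmem : ∀ j, r j ∈ {c' : Fin (N + 1) → F | (∀ j, ∃ m : M, c' j = algebraMap M F m) ∧ ∑ j, c' j • x j = 0} := by
    intro j
    refine ⟨fun l => ?_, ?_⟩
    · have h1 : r j l ∈ M := by
        simp only [r, Pi.sub_apply, Finset.sum_apply, Pi.smul_apply, smul_eq_mul]
        refine M.sub_mem ?_ (M.sum_mem fun i _ => M.mul_mem (hγM j i) ?_)
        · by_cases h : l = j
          · rw [h, Pi.single_eq_same]; exact M.one_mem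
          · rw [Pi.single_eq_of_ne h]; exact M.zero_mem
        · by_cases h : l = J i
          · rw [h, Pi.single_eq_same]; exact M.one_mem
          · rw [Pi.single_eq_of_ne h]; exact M.zero_mem
      exact ⟨⟨_, h1⟩, rfl⟩
    · rw [hr E x j, ← hγ j, sub_self]
  have hsum : c = ∑ j, c j • r j := by
    have h1 : c - ∑ j, c j • r j = ∑ i, (∑ j, c j * γ j i) • (Pi.single (J i) (1 : F) : Fin (N + 1) → F) := by
      have h2 : c = ∑ j, c j • (Pi.single j (1 : F) : Fin (N + 1) → F) := by
        funext l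
        simp [Finset.sum_apply, Pi.single_apply]
      have h3 : ∑ j, c j • r j = ∑ j, c j • (Pi.single j (1 : F) : Fin (N + 1) → F) -
          ∑ i, (∑ j, c j * γ j i) • (Pi.single (J i) (1 : F) : Fin (N + 1) → F) := by
        simp only [r, smul_sub, Finset.sum_sub_distrib, Finset.smul_sum, smul_smul, Finset.sum_smul]
        congr 1
        rw [Finset.sum_comm]
      rw [h3, ← h2, sub_sub_cancel]
    have h4 : ∑ i, (∑ j, c j * γ j i) • x (J i) = 0 := by
      have h5 : ∑ j, c j • x j = ∑ i, (∑ j, c j * γ j i) • x (J i) := by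
        conv_lhs => rw [Finset.sum_congr rfl fun j _ => by rw [hγ j]]
        simp only [Finset.smul_sum, smul_smul, Finset.sum_smul]
        rw [Finset.sum_comm]
      rw [← h5, hc]
    have h6 : ∀ i, ∑ j, c j * γ j i = 0 := Fintype.linearIndependent_iff.mp hli _ h4
    have h7 : c - ∑ j, c j • r j = 0 := by
      rw [h1]
      exact Finset.sum_eq_zero fun i _ => by rw [h6 i, zero_smul]
    exact sub_eq_zero.mp h7
  rw [hsum]
  exact Submodule.sum_mem _ fun j _ => Submodule.smul_mem _ _ (Submodule.subset_span (hrmem j))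

/-- the rank over `M` is at most `t` -/
theorem rk_M (x : Fin (N + 1) → E) (jb : Fin (N + 1)) (hxb : x jb = 1) (M : Subfield F) (J : Fin (t + 1) → Fin (N + 1))
    (γ : Fin (N + 1) → Fin (t + 1) → F) (hγM : ∀ j i, γ j i ∈ M) (hγ : ∀ j, x j = ∑ i, γ j i • x (J i)) :
    rk M (Set.range x) ≤ (t : ℕ∞) := by
  classical
  have hex : ∃ i0, γ jb i0 ≠ 0 := by
    by_contra hcon
    push Not at hcon
    have h1 := hγ jb
    rw [hxb, Finset.sum_eq_zero fun i _ => by rw [hcon i, zero_smul]] at h1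
    exact one_ne_zero h1
  obtain ⟨i0, hi0⟩ := hex
  set S : Set E := (fun i => x (J i)) '' ((Finset.univ.erase i0 : Finset (Fin (t + 1))) : Set (Fin (t + 1))) with hS
  have hcl : ∀ m : F, m ∈ M → algebraMap F E m ∈ cl M S := by
    intro m hm
    exact cl_cst (k := M) S ⟨m, hm⟩
  have hi : ∀ i, i ≠ i0 → x (J i) ∈ cl M S := fun i h => subset_cl _ ⟨i, by simp [h], rfl⟩
  have h0 : x (J i0) ∈ cl M S := by
    have h1 := hγ jb
    rw [hxb, ← Finset.add_sum_erase _ _ (Finset.mem_univ i0), Algebra.smul_def] at h1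
    have h2 : x (J i0) = (1 - ∑ i ∈ Finset.univ.erase i0, γ jb i • x (J i)) / algebraMap F E (γ jb i0) := by
      rw [eq_div_iff ((map_ne_zero _).mpr hi0)]
      linear_combination -h1
    rw [h2]
    refine cl_div (cl_sub (cl_one _) (cl_sum _ _ fun i hi' => ?_)) (hcl _ (hγM _ _))
    rw [Algebra.smul_def]
    exact cl_mul (hcl _ (hγM _ _)) (hi i (Finset.ne_of_mem_erase hi'))
  have hall : Set.range x ⊆ cl M S := by
    rintro _ ⟨j, rfl⟩
    rw [hγ j]
    refine cl_sum _ _ fun i _ => ?_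
    rw [Algebra.smul_def]
    refine cl_mul (hcl _ (hγM _ _)) ?_
    by_cases h : i = i0
    · rw [h]; exact h0
    · exact hi i h
  refine (rk_le_of_subset hall).trans ((rk_image_le _ _).trans ?_)
  rw [Finset.card_erase_of_mem (Finset.mem_univ _), Finset.card_univ, Fintype.card_fin]
  simp

/-- the further copies -/
theorem exists_w0 (C : Cop F E Ω p) (x : Fin (N + 1) → E) (M : Subfield F)
    (hM : ∀ c : F, c ∈ M ↔ algebraMap F Ω c ∈ cl k₀ (fst C x (t + 1))) (β : ℕ) (hβ : rk M (Set.range x) = β) :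
    ∃ w0 : Fin β → E, ∀ a j, C.φ a (x j) ∈ cl k₀ (fst C x (t + 1) ∪ Set.range fun i => C.φ a (w0 i)) := by
  classical
  obtain ⟨b, hb, hbi, hbr⟩ := exists_basis (k := M) (Set.range x)
  have hbc : b.encard = β := by rw [hbr, hβ]
  have hbfin : b.Finite := Set.finite_of_encard_eq_coe hbc
  have : Fintype b := hbfin.fintype
  have hcard : Fintype.card b = β := by
    have h1 : b.encard = (Fintype.card b : ℕ∞) := by
      rw [← Set.toFinset_card, ← Set.encard_coe_eq_coe_finsetCard, Set.coe_toFinset]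
    rw [h1] at hbc
    exact_mod_cast hbc
  let e : Fin β ≃ b := (Fintype.equivFinOfCardEq hcard).symm
  have hspan : Set.range x ⊆ cl M b := by
    -- a subset of full rank
    intro y hy
    by_contra hyb
    have h1 : (AlgebraicIndependent.matroid M E).Indep (insert y b) := by
      rw [Matroid.Indep.insert_indep_iff ((indep_iff b).mpr hbi)]
      left
      exact ⟨by simp, hyb⟩
    have h2 : (insert y b).encard ≤ rk M (Set.range x) := by
      unfold rk
      rw [← h1.eRk_eq_encard]
      exact (AlgebraicIndependent.matroid M E).eRk_mono (Set.insert_subset hy hb)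
    have hyb' : y ∉ b := fun h => hyb (subset_cl _ h)
    rw [Set.encard_insert_of_notMem hyb', hbr, hβ] at h2
    have h3 : ((β + 1 : ℕ) : ℕ∞) ≤ (β : ℕ∞) := by exact_mod_cast h2
    have h4 : β + 1 ≤ β := by exact_mod_cast h3
    omega
  refine ⟨fun i => (e i : E), fun a j => ?_⟩
  set T : Set Ω := fst C x (t + 1) ∪ Set.range fun i => C.φ a (e i : E) with hT
  obtain ⟨K', hK', hacl⟩ := aclk61 (k := k₀) T
  have hmem : ∀ y, y ∈ K' ↔ y ∈ cl k₀ T := fun y => by rw [← SetLike.mem_coe, hK']
  rw [← hmem]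
  have h1 := cl_sub_acl (k := M) b (K'.comap (C.φ a : E →+* Ω)) (by
    intro P hP hc z hz
    rw [Subfield.mem_comap]
    refine hacl (P.map (C.φ a : E →+* Ω)) ?_ ?_ _ ?_
    · rwa [Ne, Polynomial.map_eq_zero]
    · intro i
      rw [Polynomial.coeff_map]
      exact hc i
    · rw [Polynomial.eval_map, Polynomial.eval₂_at_apply, hz, map_zero]) (by
    intro c
    rw [Subfield.mem_comap]
    have h2 : (C.φ a : E →+* Ω) (algebraMap M E c) = algebraMap F Ω (c : F) := by
      show C.φ a (algebraMap F E (c : F)) = _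
      exact AlgHom.commutes _ _
    rw [h2, hmem]
    exact cl_mono Set.subset_union_left ((hM _).mp c.2)) (by
    intro y hy
    rw [Subfield.mem_comap, hmem]
    refine subset_cl _ (Or.inr ⟨e.symm ⟨y, hy⟩, ?_⟩)
    simp) (x j) (hspan ⟨j, rfl⟩)
  exact h1

end

end Pool.Agent.PC36
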