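import Pool.Agent.Helper36.PC.Num
import Pool.Agent.Helper17.PC.Comb

/-!
# PC, hyperplane sections: relations between the coordinates
-/

set_option autoImplicit false

namespace Pool.Agent.PC36

open Pool.Agent.GS Pool.Agent.PC

universe u

section

variable {F E : Type u} [Field F] [Field E] [Algebra F E] {N : ℕ}

/-- the relations of the coordinates -/
def Rl (F : Type u) {E : Type u} [Field F] [Field E] [Algebra F E] {N : ℕ} (x : Fin (N + 1) → E) :
    Submodule F (Fin (N + 1) → F) := LinearMap.ker (Fintype.linearCombination F x)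

theorem mem_Rl (x : Fin (N + 1) → E) (c : Fin (N + 1) → F) : c ∈ Rl F x ↔ ∑ j, c j • x j = 0 := by
  rw [Rl, LinearMap.mem_ker, Fintype.linearCombination_apply]

theorem finrank_Rl (x : Fin (N + 1) → E) :
    Module.finrank F (Submodule.span F (Set.range x)) + Module.finrank F (Rl F x) = N + 1 := by
  have h1 := LinearMap.finrank_range_add_finrank_ker (Fintype.linearCombination F x)
  rw [Fintype.range_linearCombination, Module.finrank_fin_fun] at h1
  exact h1

theorem finrank_sup_span (R : Submodule F (Fin (N + 1) → F)) (l : Fin (N + 1) → F) :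
    Module.finrank F (R ⊔ Submodule.span F {l} : Submodule F (Fin (N + 1) → F)) ≤ Module.finrank F R + 1 := by
  refine (Submodule.finrank_add_le_finrank_add_finrank R (Submodule.span F {l})).trans ?_
  have h1 := finrank_span_le_card (R := F) ({l} : Set (Fin (N + 1) → F))
  simp only [Set.toFinset_singleton, Finset.card_singleton] at h1
  omega

/-- dimension of the intersection, first bound -/
theorem finrank_Q1 {r : ℕ} (R : Fin r → Submodule F (Fin (N + 1) → F)) (l : Fin (N + 1) → F) (s0 : Fin r) :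
    Module.finrank F (⨅ σ, R σ ⊔ Submodule.span F {l} : Submodule F (Fin (N + 1) → F)) ≤ Module.finrank F (R s0) + 1 :=
  (Submodule.finrank_mono (iInf_le _ s0)).trans (finrank_sup_span _ _)

/-- dimension of the intersection, second bound -/
theorem finrank_Q2 {r : ℕ} (R : Fin r → Submodule F (Fin (N + 1) → F)) (l : Fin (N + 1) → F) (s0 b : Fin r)
    (h : ¬ R s0 ≤ R b ⊔ Submodule.span F {l}) :
    Module.finrank F (⨅ σ, R σ ⊔ Submodule.span F {l} : Submodule F (Fin (N + 1) → F)) ≤ Module.finrank F (R s0) := by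
  have h1 : (⨅ σ, R σ ⊔ Submodule.span F {l} : Submodule F (Fin (N + 1) → F)) < R s0 ⊔ Submodule.span F {l} := by
    refine lt_of_le_of_ne (iInf_le _ s0) fun heq => h ?_
    have h2 : (⨅ σ, R σ ⊔ Submodule.span F {l} : Submodule F (Fin (N + 1) → F)) ≤ R b ⊔ Submodule.span F {l} := iInf_le _ b
    rw [heq] at h2
    exact le_sup_left.trans h2
  have h3 := Submodule.finrank_lt_finrank_of_lt h1
  have h4 := finrank_sup_span (R s0) l
  omega

/-- the exceptional forms are proportional modulo the relations -/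
theorem exc_mem (R1 Rb : Submodule F (Fin (N + 1) → F)) (h : ¬ R1 ≤ Rb) (l l' : Fin (N + 1) → F)
    (hl : R1 ≤ Rb ⊔ Submodule.span F {l}) (hl' : R1 ≤ Rb ⊔ Submodule.span F {l'}) :
    l' ∈ Rb ⊔ Submodule.span F {l} := by
  obtain ⟨c, hc1, hcb⟩ := Set.not_subset.mp h
  have h1 := hl' hc1
  rw [Submodule.mem_sup] at h1
  obtain ⟨c', hc', y, hy, hyc⟩ := h1
  rw [Submodule.mem_span_singleton] at hy
  obtain ⟨α, rfl⟩ := hy
  have hα : α ≠ 0 := by
    rintro rfl
    apply hcb
    rw [← hyc, zero_smul, add_zero]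
    exact hc'
  have h2 : l' = α⁻¹ • (c - c') := by
    rw [← hyc, add_sub_cancel_left, smul_smul, inv_mul_cancel₀ hα, one_smul]
  rw [h2]
  exact Submodule.smul_mem _ _ (Submodule.sub_mem _ (hl hc1) (le_sup_left (a := Rb) hc'))

end

section

variable {k₀ F E Ω : Type u} [Field k₀] [Field F] [Field E] [Field Ω] [Algebra F E] [Algebra F Ω] [Algebra k₀ Ω]
  {p N s : ℕ}

/-- combinations of copies without normalisation -/
theorem comb1 (C : Cop F E Ω p) (x : Fin (N + 1) → E) (j0 : Fin (N + 1)) (hx0 : x j0 = 1)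
    (hs : Module.finrank F (Submodule.span F (Set.range x)) = s + 1) (hsp : s + 1 ≤ p) (v : Fin (N + 1) → Ω)
    (hv : ∀ c : Fin (N + 1) → F, ∑ j, c j • x j = 0 → ∑ j, c j • v j = 0) :
    ∃ w : Fin (s + 1) → Ω, ∀ j, v j = ∑ a, w a * C.φ ⟨a.1, lt_of_lt_of_le a.2 hsp⟩ (x j) := by
  have h0 : 0 < p := by omega
  set t : Ω := 1 - v j0 with ht
  obtain ⟨w, hw, -⟩ := comb0 C x j0 hx0 hs hsp (fun j => v j + t * C.φ ⟨0, h0⟩ (x j)) (by
    simp only [hx0, map_one, ht]; ring) (by
    intro c hc
    have h1 : ∑ j, c j • C.φ ⟨0, h0⟩ (x j) = 0 := by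
      have := congrArg (C.φ ⟨0, h0⟩) hc
      rw [map_sum, map_zero] at this
      rw [← this]
      exact Finset.sum_congr rfl fun j _ => (map_smul _ _ _).symm
    have h2 : ∑ j, c j • (v j + t * C.φ ⟨0, h0⟩ (x j)) = ∑ j, c j • v j + t * ∑ j, c j • C.φ ⟨0, h0⟩ (x j) := by
      rw [Finset.mul_sum, ← Finset.sum_add_distrib]
      refine Finset.sum_congr rfl fun j _ => ?_
      rw [smul_add, mul_smul_comm]
    rw [h2, hv c hc, h1, mul_zero, add_zero])
  refine ⟨fun a => w a - if a.1 = 0 then t else 0, fun j => ?_⟩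
  have h3 := hw j
  have h4 : ∑ a : Fin (s + 1), (w a - if a.1 = 0 then t else 0) * C.φ ⟨a.1, lt_of_lt_of_le a.2 hsp⟩ (x j) =
      ∑ a, w a * C.φ ⟨a.1, lt_of_lt_of_le a.2 hsp⟩ (x j) - t * C.φ ⟨0, h0⟩ (x j) := by
    simp only [sub_mul, Finset.sum_sub_distrib]
    congr 1
    rw [Finset.sum_eq_single (0 : Fin (s + 1))]
    · simp
    · intro b _ hb
      have : b.1 ≠ 0 := fun h => hb (Fin.ext h)
      simp [this]
    · intro h; exact absurd (Finset.mem_univ _) h
  rw [h4, ← h3]
  ring

end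

end Pool.Agent.PC36
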