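import Pool.Agent.Helper36.PC.Core1

/-!
# PC, hyperplane sections: the core
-/

set_option autoImplicit false

namespace Pool.Agent.PC36

open Pool.Agent.GS Pool.Agent.PC Pool.Agent.FIN

universe u

theorem rk_cst_mul {F E : Type u} [Field F] [Field E] [Algebra F E] {q t : ℕ} (u u' : Fin q → E) (c : Fin q → F)
    (hc : ∀ i, c i ≠ 0) (h : ∀ i, u i = algebraMap F E (c i) * u' i) (hr : Rk F u t) : Rk F u' t := by
  intro e he he0
  obtain ⟨a, ha, b, hb⟩ := hr e he fun b i hi => he0 b i (by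
    rw [h i] at hi
    exact (mul_eq_zero.mp hi).resolve_left ((map_ne_zero _).mpr (hc i)))
  refine ⟨a, ha, b / ∏ i, c i ^ ∑ b, a b * e b i, ?_⟩
  have h1 : ∏ i, u i ^ ∑ b, a b * e b i = algebraMap F E (∏ i, c i ^ ∑ b, a b * e b i) *
      ∏ i, u' i ^ ∑ b, a b * e b i := by
    rw [map_prod, ← Finset.prod_mul_distrib]
    refine Finset.prod_congr rfl fun i _ => ?_
    rw [h i, mul_zpow, map_zpow₀]
  have h2 : algebraMap F E (∏ i, c i ^ ∑ b, a b * e b i) ≠ 0 :=
    (map_ne_zero _).mpr (Finset.prod_ne_zero_iff.mpr fun i _ => zpow_ne_zero _ (hc i))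
  rw [map_div₀, eq_div_iff h2, ← hb, h1, mul_comm]

theorem form_one {k K : Type u} [Field k] [Field K] [Algebra k K] {N : ℕ} (g : Sym (Fin (N + 1)) 1 → k)
    (x : Fin (N + 1) → K) : form g x = ∑ j, algebraMap k K (g (Sym.oneEquiv j)) * x j := by
  unfold form
  rw [← Equiv.sum_comp Sym.oneEquiv]
  refine Finset.sum_congr rfl fun j _ => ?_
  congr 1
  simp [mon, Sym.oneEquiv]

theorem core1 {N n q r : ℕ} (hq : r * (n + 1) + 1 ≤ q) (hq1 : 2 * n + 3 ≤ q) : Core.{u} N n q r 1 := by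
  classical
  intro k₀ F E _ _ _ _ _ _ _ _ _ I hI hDim g hg s0 x hX hu hab hrk
  have hq0 : 0 < q := by omega
  -- normalisation
  have hne : ∀ σ, ∃ j, x σ j ≠ 0 := by
    intro σ
    by_contra hcon
    push Not at hcon
    have h1 := Finset.prod_ne_zero_iff.mp (hu ⟨0, hq0⟩) σ (Finset.mem_univ σ)
    apply h1
    rw [form_one]
    exact Finset.sum_eq_zero fun j _ => by rw [hcon j, mul_zero]
  choose j0 hj0 using hne
  let y : Fin r → Fin (N + 1) → E := fun σ j => x σ j / x σ (j0 σ)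
  have hy1 : ∀ σ, y σ (j0 σ) = 1 := fun σ => div_self (hj0 σ)
  have hyX : ∀ σ, OnX I (y σ) := by
    intro σ
    have h1 := onX_smul I hI (x σ) (hX σ) (x σ (j0 σ))⁻¹
    have h2 : (fun a => (x σ (j0 σ))⁻¹ * x σ a) = y σ := by
      funext a
      simp only [y]
      rw [div_eq_mul_inv, mul_comm]
    rwa [h2] at h1
  let T : E := ∏ σ, x σ (j0 σ) ^ 1
  have hT : T ≠ 0 := Finset.prod_ne_zero_iff.mpr fun σ _ => pow_ne_zero _ (hj0 σ)
  have huy : ∀ i, ∏ σ, form (g i) (y σ) = (∏ σ, form (g i) (x σ)) / T := by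
    intro i
    rw [← Finset.prod_div_distrib]
    exact Finset.prod_congr rfl fun σ _ => form_scale _ _ _
  have huy0 : ∀ i, ∏ σ, form (g i) (y σ) ≠ 0 := by
    intro i
    rw [huy]
    exact div_ne_zero (hu i) hT
  have hrk' : Rk F (fun i => ∏ σ, form (g i) (y σ)) 1 := by
    have h1 := rk_scale _ hrk T hT
    simp only [huy]
    exact h1
  have hf0 : ∃ j, ¬ Cst F (y s0 j) := by
    by_contra hcon
    push Not at hcon
    obtain ⟨a, b, hab⟩ := hab
    apply hab
    obtain ⟨ca, hca⟩ := hcon a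
    obtain ⟨cb, hcb⟩ := hcon b
    refine ⟨ca / cb, ?_⟩
    rw [map_div₀, ← hca, ← hcb]
    simp only [y]
    rw [div_div_div_cancel_right₀ (hj0 s0)]
  -- the nonconstant points
  set S : Finset (Fin r) := Finset.univ.filter fun σ => ∃ j, ¬ Cst F (y σ j) with hS
  have hs0 : s0 ∈ S := Finset.mem_filter.mpr ⟨Finset.mem_univ _, hf0⟩
  let ℓ : Fin q → Fin (N + 1) → F := fun i j => g i (Sym.oneEquiv j)
  have hform : ∀ i σ, form (g i) (y σ) = ∑ j, algebraMap F E (ℓ i j) * y σ j := fun i σ => form_one _ _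
  have hcst : ∀ σ, σ ∉ S → ∀ i, ∃ c : F, c ≠ 0 ∧ form (g i) (y σ) = algebraMap F E c := by
    intro σ hσ i
    have h1 : ∀ j, ∃ c : F, y σ j = algebraMap F E c := by
      by_contra hcon
      push Not at hcon
      obtain ⟨j, hj⟩ := hcon
      exact hσ (Finset.mem_filter.mpr ⟨Finset.mem_univ _, j, fun ⟨c, hc⟩ => hj c hc⟩)
    choose c hc using h1
    have h2 : form (g i) (y σ) = algebraMap F E (∑ j, ℓ i j * c j) := by
      rw [hform, map_sum]
      exact Finset.sum_congr rfl fun j _ => by rw [map_mul, ← hc j]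
    refine ⟨_, ?_, h2⟩
    intro h0
    have h3 := Finset.prod_ne_zero_iff.mp (huy0 i) σ (Finset.mem_univ σ)
    rw [h2, h0, map_zero] at h3
    exact h3 rfl
  let c : Fin r → Fin q → F := fun σ i => if h : σ ∉ S then (hcst σ h i).choose else 1
  have hc0 : ∀ σ i, c σ i ≠ 0 := by
    intro σ i
    by_cases h : σ ∉ S
    · simp only [c, dif_pos h]
      exact (hcst σ h i).choose_spec.1
    · simp only [c, dif_neg h]
      exact one_ne_zero
  have hcv : ∀ σ i, σ ∉ S → form (g i) (y σ) = algebraMap F E (c σ i) := by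
    intro σ i h
    simp only [c, dif_pos h]
    exact (hcst σ h i).choose_spec.2
  let e : Fin S.card ≃ S := (S.equivFin).symm
  let y' : Fin S.card → Fin (N + 1) → E := fun a => y (e a)
  have hprod : ∀ i, ∏ σ, form (g i) (y σ) = algebraMap F E (∏ σ ∈ Sᶜ, c σ i) *
      ∏ a, ∑ j, algebraMap F E (ℓ i j) * y' a j := by
    intro i
    have h1 : ∏ a, ∑ j, algebraMap F E (ℓ i j) * y' a j = ∏ σ ∈ S, form (g i) (y σ) := by
      rw [← Finset.prod_coe_sort S, ← Equiv.prod_comp e]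
      exact Finset.prod_congr rfl fun a _ => (hform i _).symm
    rw [h1, map_prod, ← Finset.prod_compl_mul_prod S]
    congr 1
    exact Finset.prod_congr rfl fun σ hσ => hcv σ i (Finset.mem_compl.mp hσ)
  have hcard : S.card ≤ r := by
    have := Finset.card_le_univ S
    rwa [Fintype.card_fin] at this
  refine core1n I hI hDim ℓ ?_ y' (fun a => j0 (e a)) (fun a => hy1 _) (fun a => hyX _) (e.symm ⟨s0, hs0⟩)
    (fun a => (Finset.mem_filter.mp (e a).2).2) ?_ ?_ ?_ hq1
  · exact hg.comp (fun t : Fin q × Fin (N + 1) => (t.1, Sym.oneEquiv t.2)) (by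
      rintro ⟨a, b⟩ ⟨a', b'⟩ hh
      have h1 := Prod.mk.inj hh
      exact Prod.ext h1.1 (Sym.oneEquiv.injective h1.2))
  · intro i h0
    apply huy0 i
    rw [hprod i, h0, mul_zero]
  · refine rk_cst_mul _ _ (fun i => ∏ σ ∈ Sᶜ, c σ i) (fun i => Finset.prod_ne_zero_iff.mpr fun σ _ => hc0 σ i) hprod hrk'
  · have h1 : S.card * (n + 1) ≤ r * (n + 1) := Nat.mul_le_mul_right _ hcard
    omega

end Pool.Agent.PC36
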