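import Mathlib

/-!
# PC, the case of hyperplane sections: numerical inequalities
-/

set_option autoImplicit false

namespace Pool.Agent.PC36

theorem num1 (n r s q : ℕ) (hn : n ≤ s) (hq : r * (n + 1) + 1 ≤ q) (h : q * s + 1 ≤ r * n * (s + 1) + s) : False := by
  have h1 : (r * (n + 1) + 1) * s ≤ q * s := Nat.mul_le_mul_right s hq
  have h2 : r * n ≤ r * s := Nat.mul_le_mul_left r hn
  nlinarith

theorem num2 (n r s q : ℕ) (hs : 1 ≤ s) (hn : s < n) (hr : 2 ≤ r) (hq : r * (n + 1) + 1 ≤ q)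
    (h : q * s + 1 ≤ (s + 1) * n + (r - 1) * ((s + 1) * s) + s) : False := by
  obtain ⟨r, rfl⟩ := Nat.exists_eq_add_of_le hr
  obtain ⟨g, rfl⟩ := Nat.exists_eq_add_of_lt hn
  have h1 : ((2 + r) * ((s + g + 1) + 1) + 1) * s ≤ q * s := Nat.mul_le_mul_right s hq
  have h2 : 2 + r - 1 = r + 1 := by omega
  rw [h2] at h
  have h3 : g ≤ g * s := Nat.le_mul_of_pos_right g hs
  nlinarith [Nat.zero_le (r * s * g), Nat.zero_le (r * s), Nat.zero_le (s * g), Nat.zero_le (r * g)]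

theorem num3a (n r s q : ℕ) (hq : r * (n + 1) + 1 ≤ q) (h : q * (s + 1) ≤ r * ((s + 1) * n + s) + s) : False := by
  have h1 : (r * (n + 1) + 1) * (s + 1) ≤ q * (s + 1) := Nat.mul_le_mul_right _ hq
  nlinarith [Nat.zero_le r]

theorem num3b (n r s t β B q : ℕ) (ht : t ≤ s) (hn : s < n) (hβ : β ≤ t) (hs : 1 ≤ s)
    (hB : B + β ≤ n + 1) (hq : (r + 2) * (n + 1) + 1 ≤ q)
    (h : q * (s + 1) ≤ ((s + 1) * n + s) + (n + t * (s + 1) + (s + 1 - t) * β) + r * ((s + 1) * n + s) + s + B) :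
    False := by
  obtain ⟨a, rfl⟩ := Nat.exists_eq_add_of_le ht
  obtain ⟨g, rfl⟩ := Nat.exists_eq_add_of_lt hn
  obtain ⟨c, rfl⟩ := Nat.exists_eq_add_of_le hβ
  have h1 : ((r + 2) * ((β + c + a + g + 1) + 1) + 1) * (β + c + a + 1) ≤ q * (β + c + a + 1) :=
    Nat.mul_le_mul_right _ hq
  have h2 : β + c + a + 1 - (β + c) = a + 1 := by omega
  rw [h2] at h
  obtain ⟨s', hs'⟩ := Nat.exists_eq_add_of_le hs
  have h4 : g * (β + c + a) = g + g * s' := by rw [hs']; ring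
  nlinarith [Nat.zero_le (g * s'), Nat.zero_le (a * a), Nat.zero_le (a * c), Nat.zero_le (r * (β + c + a))]

/-- the function `t ↦ (t + 1) n + (s + 1 - t) t` is increasing -/
theorem mono_f (n s t : ℕ) (ht : t ≤ s) (hn : s < n) : (t + 1) * n + (s + 1 - t) * t ≤ (s + 1) * n + s := by
  obtain ⟨a, rfl⟩ := Nat.exists_eq_add_of_le ht
  obtain ⟨g, rfl⟩ := Nat.exists_eq_add_of_lt hn
  have h2 : t + a + 1 - t = a + 1 := by omega
  rw [h2]
  nlinarith [Nat.zero_le (a * a), Nat.zero_le (a * g)]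

end Pool.Agent.PC36
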