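import Pool.Agent.Helper36.PC.Lin
import Pool.Agent.Helper61.PC.Step

/-!
# PC, hyperplane sections, case (3b): the rank of the copies of two points
-/

set_option autoImplicit false

namespace Pool.Agent.PC36

open Pool.Agent.GS Pool.Agent.PC Pool.Agent.FIN

universe u

section

variable {k₀ F E Ω : Type u} [Field k₀] [Field F] [Field E] [Field Ω] [Algebra F E] [Algebra F Ω] [Algebra k₀ Ω]
  {p N s t : ℕ}

/-- the coordinates of a copy -/
def cp (C : Cop F E Ω p) (x : Fin (N + 1) → E) (a : Fin p) : Set Ω := Set.range fun j => C.φ a (x j)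

/-- the first copies -/
def fst (C : Cop F E Ω p) (x : Fin (N + 1) → E) (t : ℕ) : Set Ω :=
  ⋃ a ∈ Finset.univ.filter (fun a : Fin p => a.1 < t), cp C x a

theorem rel_copy (C : Cop F E Ω p) (x : Fin (N + 1) → E) (a : Fin p) (c : Fin (N + 1) → F) :
    ∑ j, c j • C.φ a (x j) = C.φ a (∑ j, c j • x j) := by
  rw [map_sum]
  exact Finset.sum_congr rfl fun j _ => (map_smul _ _ _).symm

theorem exists_w (C : Cop F E Ω p) (x1 xb : Fin (N + 1) → E) (j1 jb : Fin (N + 1)) (hx1 : x1 j1 = 1) (hxb : xb jb = 1)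
    (hs1 : Module.finrank F (Submodule.span F (Set.range x1)) = s + 1) (hsp : s + 1 ≤ p)
    (ℓ : Fin (N + 1) → F) (hℓ : ∑ j, ℓ j • xb j ≠ 0) (hR : Rl F x1 ≤ Rl F xb ⊔ Submodule.span F {ℓ}) (h0 : 0 < p)
    (a : Fin p) : ∃ w : Fin (s + 1) → Ω, ∀ j, C.φ a (xb j) ∈
      cl k₀ ((⋃ e, cp C x1 e) ∪ cp C xb ⟨0, h0⟩ ∪ Set.range w) := by
  have hne : ∀ b : Fin p, ∑ j, ℓ j • C.φ b (xb j) ≠ 0 := by
    intro b
    rw [rel_copy]
    exact (map_ne_zero _).mpr hℓ
  set c : Ω := (∑ j, ℓ j • C.φ a (xb j)) / ∑ j, ℓ j • C.φ ⟨0, h0⟩ (xb j) with hc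
  set v : Fin (N + 1) → Ω := fun j => C.φ a (xb j) - c * C.φ ⟨0, h0⟩ (xb j) with hv
  have hval : ∀ g : Fin (N + 1) → F, ∑ j, g j • v j = ∑ j, g j • C.φ a (xb j) - c * ∑ j, g j • C.φ ⟨0, h0⟩ (xb j) := by
    intro g
    rw [Finset.mul_sum, ← Finset.sum_sub_distrib]
    refine Finset.sum_congr rfl fun j _ => ?_
    rw [hv]
    simp only [smul_sub, mul_smul_comm]
  have hker : Rl F xb ⊔ Submodule.span F {ℓ} ≤ LinearMap.ker (Fintype.linearCombination F v) := by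
    rw [sup_le_iff, Submodule.span_singleton_le_iff_mem]
    constructor
    · intro g hg
      rw [mem_Rl] at hg
      rw [LinearMap.mem_ker, Fintype.linearCombination_apply, hval, rel_copy, rel_copy, hg, map_zero, map_zero,
        mul_zero, sub_zero]
    · rw [LinearMap.mem_ker, Fintype.linearCombination_apply, hval, hc, div_mul_cancel₀ _ (hne _), sub_self]
  obtain ⟨w, hw⟩ := comb1 C x1 j1 hx1 hs1 hsp v (by
    intro g hg
    have h1 := hker (hR ((mem_Rl x1 g).mpr hg))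
    rwa [LinearMap.mem_ker, Fintype.linearCombination_apply] at h1)
  refine ⟨w, ?_⟩
  set G : Set Ω := (⋃ e, cp C x1 e) ∪ cp C xb ⟨0, h0⟩ ∪ Set.range w with hG
  have hvG : ∀ j, v j ∈ cl k₀ G := by
    intro j
    rw [hw j]
    refine cl_sum _ _ fun e _ => cl_mul (subset_cl _ (Or.inr ⟨e, rfl⟩)) (subset_cl _ (Or.inl (Or.inl ?_)))
    exact Set.mem_iUnion.mpr ⟨_, ⟨j, rfl⟩⟩
  have h0G : ∀ j, C.φ ⟨0, h0⟩ (xb j) ∈ cl k₀ G := fun j => subset_cl _ (Or.inl (Or.inr ⟨j, rfl⟩))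
  have hcG : c ∈ cl k₀ G := by
    have h1 : c = 1 - v jb := by
      rw [hv]
      simp only [hxb, map_one]
      ring
    rw [h1]
    exact cl_sub (cl_one _) (hvG jb)
  intro j
  have h2 : C.φ a (xb j) = v j + c * C.φ ⟨0, h0⟩ (xb j) := by
    rw [hv]
    ring
  rw [h2]
  exact cl_add (hvG j) (cl_mul hcG (h0G j))

theorem rk_range_fin {m : ℕ} (w : Fin m → Ω) : rk k₀ (Set.range w) ≤ (m : ℕ∞) := by
  have := rk_image_le (k := k₀) (Finset.univ : Finset (Fin m)) w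
  rwa [Finset.coe_univ, Set.image_univ, Finset.card_univ, Fintype.card_fin] at this

theorem rk_b (C : Cop F E Ω (s + 2)) (x1 xb : Fin (N + 1) → E) (j1 jb : Fin (N + 1)) (hx1 : x1 j1 = 1) (hxb : xb jb = 1)
    (hs1 : Module.finrank F (Submodule.span F (Set.range x1)) = s + 1) (hts : t ≤ s)
    (ℓ : Fin (N + 1) → F) (hℓ : ∑ j, ℓ j • xb j ≠ 0) (hR : Rl F x1 ≤ Rl F xb ⊔ Submodule.span F {ℓ}) {n β : ℕ}
    (hn1 : ∀ a, rk k₀ (cp C x1 a) ≤ n) (hnb : ∀ a, rk k₀ (cp C xb a) ≤ n) (w0 : Fin β → E)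
    (hw0 : ∀ a j, C.φ a (xb j) ∈ cl k₀ (fst C xb (t + 1) ∪ Set.range fun i => C.φ a (w0 i))) :
    rk k₀ ((⋃ a, cp C x1 a) ∪ ⋃ a, cp C xb a) ≤
      (((s + 1) * n + s + (n + t * (s + 1) + (s + 1 - t) * β) : ℕ) : ℕ∞) := by
  classical
  have h0 : 0 < s + 2 := by omega
  choose w hw using exists_w (k₀ := k₀) C x1 xb j1 jb hx1 hxb hs1 (by omega) ℓ hℓ hR h0
  set A : Finset (Fin (s + 2)) := Finset.univ.filter fun a => 1 ≤ a.1 ∧ a.1 < t + 1 with hA
  set B : Finset (Fin (s + 2)) := Finset.univ.filter fun a => t + 1 ≤ a.1 with hB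
  have hAc : A.card = t := by
    have h1 : A.image (fun a : Fin (s + 2) => a.1) = Finset.Ico 1 (t + 1) := by
      ext b
      simp only [hA, Finset.mem_image, Finset.mem_filter, Finset.mem_univ, true_and, Finset.mem_Ico]
      constructor
      · rintro ⟨a, ha, rfl⟩; exact ha
      · intro hb; exact ⟨⟨b, by omega⟩, hb, rfl⟩
    have h2 := Finset.card_image_of_injective A Fin.val_injective
    have h3 : (A.image (fun a : Fin (s + 2) => a.1)).card = A.card := h2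
    rw [← h3, h1, Nat.card_Ico]
    omega
  have hBc : B.card = s + 1 - t := by
    have h1 : B.image (fun a : Fin (s + 2) => a.1) = Finset.Ico (t + 1) (s + 2) := by
      ext b
      simp only [hB, Finset.mem_image, Finset.mem_filter, Finset.mem_univ, true_and, Finset.mem_Ico]
      constructor
      · rintro ⟨a, ha, rfl⟩; exact ⟨ha, a.2⟩
      · intro hb; exact ⟨⟨b, by omega⟩, hb.1, rfl⟩
    have h2 := Finset.card_image_of_injective B Fin.val_injective
    have h3 : (B.image (fun a : Fin (s + 2) => a.1)).card = B.card := h2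
    rw [← h3, h1, Nat.card_Ico]
    omega
  set G1 : Set Ω := ⋃ e, cp C x1 e with hG1
  set G2 : Set Ω := cp C xb ⟨0, h0⟩ with hG2
  set G3 : Set Ω := ⋃ a ∈ A, Set.range (w a) with hG3
  set G4 : Set Ω := ⋃ a ∈ B, Set.range (fun i => C.φ a (w0 i)) with hG4
  have hlow : ∀ a : Fin (s + 2), a.1 < t + 1 → ∀ j, C.φ a (xb j) ∈ cl k₀ (G1 ∪ (G2 ∪ (G3 ∪ G4))) := by
    intro a ha j
    by_cases ha0 : a.1 = 0
    · have : a = ⟨0, h0⟩ := Fin.ext ha0
      subst this
      exact subset_cl _ (Or.inr (Or.inl ⟨j, rfl⟩))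
    · refine cl_mono ?_ (hw a j)
      rintro y ((hy | hy) | hy)
      · exact Or.inl hy
      · exact Or.inr (Or.inl hy)
      · refine Or.inr (Or.inr (Or.inl ?_))
        exact Set.mem_iUnion₂.mpr ⟨a, Finset.mem_filter.mpr ⟨Finset.mem_univ _, by omega, ha⟩, hy⟩
  have hsub : G1 ∪ (⋃ a, cp C xb a) ⊆ cl k₀ (G1 ∪ (G2 ∪ (G3 ∪ G4))) := by
    rintro y (hy | hy)
    · exact subset_cl _ (Or.inl hy)
    · obtain ⟨a, j, rfl⟩ := Set.mem_iUnion.mp hy
      change C.φ a (xb j) ∈ _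
      by_cases ha : a.1 < t + 1
      · exact hlow a ha j
      · refine cl_subset ?_ (hw0 a j)
        rintro y (hy | hy)
        · obtain ⟨b, hb, j', rfl⟩ := Set.mem_iUnion₂.mp hy
          exact hlow b (Finset.mem_filter.mp hb).2 j'
        · refine subset_cl _ (Or.inr (Or.inr (Or.inr ?_)))
          exact Set.mem_iUnion₂.mpr ⟨a, Finset.mem_filter.mpr ⟨Finset.mem_univ _, by omega⟩, hy⟩
  have r1 : rk k₀ G1 ≤ (((s + 1) * n + s : ℕ) : ℕ∞) := by
    have := rk_copies (k₀ := k₀) C x1 j1 hx1 hs1 (by omega) hn1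
    have h2 : s + 2 - s - 1 = 1 := by omega
    rw [h2, one_mul] at this
    exact this
  have r2 : rk k₀ G2 ≤ n := hnb _
  have r3 : rk k₀ G3 ≤ ((t * (s + 1) : ℕ) : ℕ∞) := by
    have := rk_iUnion61 (k := k₀) A (fun a => Set.range (w a)) (s + 1) fun a _ => rk_range_fin _
    rwa [hAc] at this
  have r4 : rk k₀ G4 ≤ (((s + 1 - t) * β : ℕ) : ℕ∞) := by
    have := rk_iUnion61 (k := k₀) B (fun a => Set.range (fun i => C.φ a (w0 i))) β fun a _ => rk_range_fin _
    rwa [hBc] at this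
  refine (rk_le_of_subset hsub).trans ((rk_union _ _).trans ?_)
  refine (add_le_add r1 ((rk_union _ _).trans (add_le_add r2 ((rk_union _ _).trans (add_le_add r3 r4))))).trans ?_
  push_cast
  rw [add_assoc (n : ℕ∞)]

end

end Pool.Agent.PC36
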